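import Mathlib
import Pool.Agent.W238.Leh.General

/-!
Congruences between iterates and canonical heights: the global inequality.
-/

set_option autoImplicit false

namespace Pool.Agent.X115.DL

open NumberField Module MvPolynomial Filter Topology
open Pool.Agent.W238.Leh

noncomputable section

variable {L : Type} [Field L] [NumberField L] {N : ℕ}

/-- the minors of two vectors are at most `r` times the product of the norms, at `v` -/
def Cg (v : FinitePlace L) (r : ℝ) (y z : Fin (N + 1) → L) : Prop :=
  ∀ i j, v (y i * z j - y j * z i) ≤ r * (nmf v y * nmf v z)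

lemma nmf_smul (v : FinitePlace L) (c : L) (y : Fin (N + 1) → L) :
    nmf v (c • y) = v c * nmf v y := by
  unfold nmf
  simp only [Pi.smul_apply, smul_eq_mul, map_mul]
  rw [Real.mul_iSup_of_nonneg (v_nonneg v c)]

lemma Cg.smul {v : FinitePlace L} {r : ℝ} {y z : Fin (N + 1) → L} (h : Cg v r y z) (b c : L) :
    Cg v r (b • y) (c • z) := by
  intro i j
  rw [nmf_smul, nmf_smul]
  have e : (b • y) i * (c • z) j - (b • y) j * (c • z) i = b * c * (y i * z j - y j * z i) := by
    simp only [Pi.smul_apply, smul_eq_mul]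
    ring
  rw [e, map_mul, map_mul]
  calc v b * v c * v (y i * z j - y j * z i) ≤ v b * v c * (r * (nmf v y * nmf v z)) :=
        mul_le_mul_of_nonneg_left (h i j) (mul_nonneg (v_nonneg v b) (v_nonneg v c))
    _ = _ := by ring

/-- two nonzero vectors which are not proportional have a nonzero minor -/
lemma exists_minor_ne {y z : Fin (N + 1) → L} (hy : y ≠ 0) (hz : z ≠ 0)
    (h : ¬ ∃ c : L, c ≠ 0 ∧ y = c • z) : ∃ i j, y i * z j - y j * z i ≠ 0 := by
  by_contra hcon
  push Not at hcon
  obtain ⟨j, hj⟩ : ∃ j, z j ≠ 0 := Function.ne_iff.mp hz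
  apply h
  refine ⟨y j / z j, ?_, ?_⟩
  · intro h0
    rw [div_eq_zero_iff] at h0
    have h1 : y j = 0 := h0.resolve_right hj
    apply hy
    funext i
    have h2 := hcon i j
    rw [h1, zero_mul, sub_zero] at h2
    exact (mul_eq_zero.mp h2).resolve_right hj
  · funext i
    have h2 := hcon i j
    simp only [Pi.smul_apply, smul_eq_mul]
    rw [div_mul_eq_mul_div, eq_div_iff hj]
    linear_combination h2

lemma minor_inf (w : InfinitePlace L) (y z : Fin (N + 1) → L) (i j : Fin (N + 1)) :
    w (y i * z j - y j * z i) ≤ 2 * (nmi w y * nmi w z) := by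
  have h1 : w (y i * z j - y j * z i) ≤ w (y i * z j) + w (y j * z i) := by
    have := w.1.sub_le_add (y i * z j) (y j * z i)
    exact this
  have h2 : ∀ a b, w (y a * z b) ≤ nmi w y * nmi w z := by
    intro a b
    rw [map_mul]
    exact mul_le_mul (le_nmi w y a) (le_nmi w z b) (apply_nonneg w _) (nmi_nonneg w y)
  linarith [h2 i j, h2 j i]

lemma minor_fin (v : FinitePlace L) (y z : Fin (N + 1) → L) : Cg v 1 y z := by
  intro i j
  rw [one_mul]
  have h2 : ∀ a b, v (y a * z b) ≤ nmf v y * nmf v z := by
    intro a b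
    rw [map_mul]
    exact mul_le_mul (le_nmf v y a) (le_nmf v z b) (v_nonneg v _) (nmf_nonneg v y)
  have h1 : v (y i * z j - y j * z i) ≤ max (v (y i * z j)) (v (y j * z i)) := by
    have h3 := FinitePlace.add_le v (y i * z j) (-(y j * z i))
    have h4 : v (-(y j * z i)) = v (y j * z i) := by
      rw [← neg_one_mul, map_mul]
      have h5 : v (-1 : L) = 1 := by
        have h6 : v (-1 : L) * v (-1 : L) = 1 := by
          rw [← map_mul]; simp
        have h7 := v_nonneg v (-1 : L)
        nlinarith
      rw [h5, one_mul]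
    rw [h4] at h3
    rw [sub_eq_add_neg]
    exact h3
  exact h1.trans (max_le (h2 i j) (h2 j i))

/-- the global inequality: congruences at finite places, with local depths `g v` of finite
support and total depth `s` -/
lemma global {y z : Fin (N + 1) → L} (hy : y ≠ 0) (hz : z ≠ 0)
    (h : ¬ ∃ c : L, c ≠ 0 ∧ y = c • z) {g : FinitePlace L → ℝ} {s : ℝ}
    (hg : HasGS (fun _ : InfinitePlace L => (0 : ℝ)) g s)
    (hc : ∀ v, Cg v (Real.exp (-g v)) y z) :
    s ≤ Height.logHeight y + Height.logHeight z + finrank ℚ L * Real.log 2 := by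
  obtain ⟨i, j, hij⟩ := exists_minor_ne hy hz h
  have h0 := HasGS.prod hij
  have h1 := ((HasGS.height hy).add (HasGS.height hz)).add (hg.const_mul (-1))
  have h2 := h0.le h1 (c := Real.log 2) ?_ ?_
  · linarith
  · intro w
    have hw : 0 < w (y i * z j - y j * z i) := InfinitePlace.pos_iff.mpr hij
    have hyw := nmi_pos w hy
    have hzw := nmi_pos w hz
    have h3 := Real.log_le_log hw (minor_inf w y z i j)
    rw [Real.log_mul (by norm_num) (by positivity), Real.log_mul hyw.ne' hzw.ne'] at h3
    linarith
  · intro v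
    have hv : 0 < v (y i * z j - y j * z i) := FinitePlace.pos_iff.mpr hij
    have hyv := nmf_pos v hy
    have hzv := nmf_pos v hz
    have h3 := Real.log_le_log hv (hc v i j)
    rw [Real.log_mul (Real.exp_pos _).ne' (by positivity), Real.log_mul hyv.ne' hzv.ne',
      Real.log_exp] at h3
    linarith

end

end Pool.Agent.X115.DL
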