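import Mathlib
import Pool.Agent.X115.DL.Pre1

/-!
Forms with arbitrary coefficients: passage to integral forms, and the main inequality.
-/

set_option autoImplicit false

namespace Pool.Agent.X115.DL

open NumberField Module MvPolynomial Filter Topology
open Pool.Agent.W238.Leh

noncomputable section

/-- integral forms with the same map -/
lemma setup (K : Type) [Field K] [NumberField K] (N d : ℕ) (hd : 2 ≤ d)
    (F : Fin (N + 1) → MvPolynomial (Fin (N + 1)) K) (hF : ∀ i, (F i).IsHomogeneous d)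
    (hmor : ∀ z : Fin (N + 1) → AlgebraicClosure K, (∀ i, aeval z (F i) = 0) → z = 0) :
    ∃ C : ℝ, 0 ≤ C ∧ ∀ (L : Type) [Field L] [NumberField L] [Algebra K L]
      (x : Fin (N + 1) → L), x ≠ 0 →
      Tendsto (fun n : ℕ => Height.logHeight ((act F)^[n] x) /
          ((finrank ℚ L : ℝ) * (d : ℝ) ^ n)) atTop (𝓝 (canH F d x)) ∧
      0 ≤ canH F d x ∧
      ∀ n : ℕ, (act F)^[n] x ≠ 0 ∧
        Height.logHeight ((act F)^[n] x) ≤ finrank ℚ L * (d ^ n * canH F d x + C) := by
  classical
  set T : Finset K := Finset.univ.biUnion fun i => (F i).support.image (F i).coeff with hT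
  obtain ⟨a, ha, haT⟩ := exists_denom T
  have haK : (a : K) ≠ 0 := by
    have : a ≠ 0 := by omega
    exact_mod_cast this
  set F' : Fin (N + 1) → MvPolynomial (Fin (N + 1)) K := fun i => C (a : K) * F i with hF'
  have hhom : ∀ i, (F' i).IsHomogeneous d := by
    intro i
    have h7 := (isHomogeneous_C (Fin (N + 1)) (a : K)).mul (hF i)
    rwa [zero_add] at h7
  have hint : ∀ i s, IsIntegral ℤ ((F' i).coeff s) := by
    intro i s
    simp only [hF', coeff_C_mul]
    by_cases hs : s ∈ (F i).support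
    · apply haT
      rw [hT]
      simp only [Finset.mem_biUnion, Finset.mem_image]
      exact ⟨i, Finset.mem_univ _, s, hs, rfl⟩
    · rw [notMem_support_iff.mp hs, mul_zero]
      exact isIntegral_zero
  have hmor' : ∀ z : Fin (N + 1) → AlgebraicClosure K, (∀ i, aeval z (F' i) = 0) → z = 0 := by
    intro z hz
    apply hmor
    intro i
    have h1 := hz i
    simp only [hF', map_mul, aeval_C] at h1
    refine (mul_eq_zero.mp h1).resolve_left ?_
    rw [map_natCast]
    have : a ≠ 0 := by omega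
    exact_mod_cast this
  obtain ⟨A, b, hB, -⟩ := final_int hd hhom hint hmor' one_pos
  refine ⟨hC A b, hB.hC_nonneg, fun L _ _ _ x hx => ?_⟩
  have haL : (a : L) ≠ 0 := by
    have : a ≠ 0 := by omega
    exact_mod_cast this
  have hact : ∀ z : Fin (N + 1) → L, act F' z = (a : L) • act F z := by
    intro z
    funext i
    simp only [act, hF', map_mul, map_natCast, Pi.smul_apply, smul_eq_mul]
  have hiter : ∀ (n : ℕ) (z : Fin (N + 1) → L), ∃ c : L, c ≠ 0 ∧
      (act F')^[n] z = c • (act F)^[n] z := by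
    intro n z
    induction n with
    | zero => exact ⟨1, one_ne_zero, by simp⟩
    | succ n ih =>
      obtain ⟨c, hc, h⟩ := ih
      refine ⟨a * c ^ d, mul_ne_zero haL (pow_ne_zero _ hc), ?_⟩
      rw [Function.iterate_succ_apply', Function.iterate_succ_apply', h, hact,
        act_smul hF, smul_smul]
  have hseq : ∀ z : Fin (N + 1) → L, (fun n : ℕ => Height.logHeight ((act F')^[n] z) /
      ((finrank ℚ L : ℝ) * (d : ℝ) ^ n)) = fun n : ℕ => Height.logHeight ((act F)^[n] z) /
      ((finrank ℚ L : ℝ) * (d : ℝ) ^ n) := by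
    intro z
    funext n
    obtain ⟨c, hc, h⟩ := hiter n z
    rw [h, Height.logHeight_smul_eq_logHeight _ hc]
  have hcan : ∀ z : Fin (N + 1) → L, canH F' d z = canH F d z := by
    intro z
    unfold canH
    rw [hseq]
  refine ⟨?_, ?_, fun n => ?_⟩
  · have h1 := hB.canH_tendsto hd hx
    rw [hcan, hseq] at h1
    exact h1
  · rw [← hcan]
    exact hB.canH_nonneg hd hx
  · obtain ⟨c, hc, h⟩ := hiter n x
    have h0 := hB.iter_ne_zero hx n
    constructor
    · intro h2
      rw [h2, smul_zero] at h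
      exact h0 h
    · have h3 := hB.logHeight_le hd h0
      rw [hB.canH_iter hd hx, hcan] at h3
      rwa [h, Height.logHeight_smul_eq_logHeight _ hc] at h3

lemma hasGS_finset {L : Type} [Field L] [NumberField L] (T : Finset (FinitePlace L))
    (g : FinitePlace L → ℝ) [DecidableEq (FinitePlace L)] :
    HasGS (fun _ : InfinitePlace L => (0 : ℝ)) (fun v => if v ∈ T then g v else 0)
      (∑ v ∈ T, g v) := by
  have hsupp : (Function.support fun v => if v ∈ T then g v else 0) ⊆ (T : Set _) := by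
    intro v hv
    rw [Function.mem_support] at hv
    by_contra h
    exact hv (if_neg h)
  refine ⟨(Finset.finite_toSet T).subset hsupp, ?_⟩
  rw [finsum_eq_sum_of_support_subset _ hsupp]
  simp only [mul_zero, Finset.sum_const_zero, zero_add]
  exact Finset.sum_congr rfl fun v hv => if_pos hv

/-- the first part -/
theorem part1 (K : Type) [Field K] [NumberField K] (N d : ℕ) (hd : 2 ≤ d)
    (F : Fin (N + 1) → MvPolynomial (Fin (N + 1)) K) (hF : ∀ i, (F i).IsHomogeneous d)
    (hmor : ∀ z : Fin (N + 1) → AlgebraicClosure K, (∀ i, aeval z (F i) = 0) → z = 0) :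
    ∃ C : ℝ, 0 < C ∧ ∀ (L : Type) [Field L] [NumberField L] [Algebra K L]
      (x : Fin (N + 1) → L), x ≠ 0 →
      Tendsto (fun n : ℕ => Height.logHeight ((act F)^[n] x) /
          ((finrank ℚ L : ℝ) * (d : ℝ) ^ n)) atTop (𝓝 (canH F d x)) ∧
      0 ≤ canH F d x ∧
      ∀ k n : ℕ, (¬ ∃ c : L, c ≠ 0 ∧ (act F)^[n] x = c • (act F)^[k] x) →
        ∀ (g : FinitePlace L → ℝ) (s : ℝ), HasGS (fun _ : InfinitePlace L => (0 : ℝ)) g s →
          (∀ v, Cg v (Real.exp (-g v)) ((act F)^[n] x) ((act F)^[k] x)) →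
          s ≤ finrank ℚ L * ((d ^ n + d ^ k) * canH F d x + C) := by
  obtain ⟨C, hC, h⟩ := setup K N d hd F hF hmor
  refine ⟨2 * C + Real.log 2, by have := Real.log_pos one_lt_two; linarith, ?_⟩
  intro L _ _ _ x hx
  obtain ⟨h1, h2, h3⟩ := h L x hx
  refine ⟨h1, h2, fun k n hnp g s hg hc => ?_⟩
  have h4 := global (h3 n).1 (h3 k).1 hnp hg hc
  have h5 := (h3 n).2
  have h6 := (h3 k).2
  calc s ≤ _ := h4
    _ ≤ finrank ℚ L * (d ^ n * canH F d x + C) + finrank ℚ L * (d ^ k * canH F d x + C) +
        finrank ℚ L * Real.log 2 := by linarith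
    _ = _ := by ring

end

end Pool.Agent.X115.DL
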