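import Mathlib
import Pool.Agent.X115.DL.Pre2

/-!
Points with conjugates near an attracting cycle.
-/

set_option autoImplicit false

namespace Pool.Agent.X115.DL

open NumberField Module MvPolynomial Filter Topology
open Pool.Agent.W238.Leh

noncomputable section

variable {L : Type} [Field L] [NumberField L] {N : ℕ}

/-- projective distance (supremum of the minors of normalised vectors) -/
def dl (y z : Fin (N + 1) → ℂ) : ℝ :=
  (⨆ p : Fin (N + 1) × Fin (N + 1), ‖y p.1 * z p.2 - y p.2 * z p.1‖) / (‖y‖ * ‖z‖)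

lemma dl_nonneg (y z : Fin (N + 1) → ℂ) : 0 ≤ dl y z :=
  div_nonneg (Real.iSup_nonneg fun _ => norm_nonneg _) (by positivity)

lemma dl_le_two (y z : Fin (N + 1) → ℂ) : dl y z ≤ 2 := by
  unfold dl
  refine div_le_of_le_mul₀ (by positivity) (by norm_num) (ciSup_le fun p => ?_)
  have h : ∀ i j, ‖y i * z j‖ ≤ ‖y‖ * ‖z‖ := fun i j => by
    rw [norm_mul]
    exact mul_le_mul (norm_le_pi_norm y i) (norm_le_pi_norm z j) (norm_nonneg _) (norm_nonneg _)
  calc ‖y p.1 * z p.2 - y p.2 * z p.1‖ ≤ ‖y p.1 * z p.2‖ + ‖y p.2 * z p.1‖ := norm_sub_le _ _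
    _ ≤ 2 * (‖y‖ * ‖z‖) := by linarith [h p.1 p.2, h p.2 p.1]

lemma minor_le_of_dl {y z : Fin (N + 1) → ℂ} {s : ℝ} (hy : y ≠ 0) (hz : z ≠ 0)
    (h : dl y z ≤ s) (i j : Fin (N + 1)) : ‖y i * z j - y j * z i‖ ≤ s * (‖y‖ * ‖z‖) := by
  have hy' : 0 < ‖y‖ := norm_pos_iff.mpr hy
  have hz' : 0 < ‖z‖ := norm_pos_iff.mpr hz
  unfold dl at h
  rw [div_le_iff₀ (by positivity)] at h
  refine le_trans ?_ h
  exact le_ciSup (f := fun p : Fin (N + 1) × Fin (N + 1) => ‖y p.1 * z p.2 - y p.2 * z p.1‖)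
    (Set.finite_range _).bddAbove (i, j)

/-- the vector over `ℂ` -/
def cv (σ : L →+* ℂ) (x : Fin (N + 1) → L) : Fin (N + 1) → ℂ := fun i => σ (x i)

lemma cv_ne {σ : L →+* ℂ} {x : Fin (N + 1) → L} (hx : x ≠ 0) : cv σ x ≠ 0 := by
  obtain ⟨i, hi⟩ := Function.ne_iff.mp hx
  intro h
  have := congrFun h i
  simp only [cv, Pi.zero_apply, map_eq_zero] at this
  exact hi this

lemma norm_cv (σ : L →+* ℂ) (x : Fin (N + 1) → L) : ‖cv σ x‖ = nmi (InfinitePlace.mk σ) x := by
  apply le_antisymm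
  · rw [pi_norm_le_iff_of_nonneg (nmi_nonneg _ x)]
    intro i
    exact le_nmi (InfinitePlace.mk σ) x i
  · exact nmi_le fun i => norm_le_pi_norm (cv σ x) i

lemma globalInf {y z : Fin (N + 1) → L} (hy : y ≠ 0) (hz : z ≠ 0)
    (h : ¬ ∃ c : L, c ≠ 0 ∧ y = c • z) (S : Finset (L →+* ℂ)) {γ : ℝ} (hγ : 0 ≤ γ)
    (hc : ∀ σ ∈ S, dl (cv σ y) (cv σ z) ≤ Real.exp (-γ)) :
    S.card * γ ≤ Height.logHeight y + Height.logHeight z + finrank ℚ L * Real.log 2 := by
  classical
  set g : InfinitePlace L → ℝ := fun w => if w ∈ S.image InfinitePlace.mk then γ else 0 with hg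
  have hgs : HasGS g (fun _ : FinitePlace L => (0 : ℝ)) (∑ w, (w.mult : ℝ) * g w) := by
    refine ⟨?_, by simp⟩
    have : (Function.support fun _ : FinitePlace L => (0 : ℝ)) = ∅ := by ext; simp
    rw [this]
    exact Set.finite_empty
  have hsum : S.card * γ ≤ ∑ w, (w.mult : ℝ) * g w := by
    have h1 : ∑ w, (w.mult : ℝ) * g w = ∑ w ∈ S.image InfinitePlace.mk, (w.mult : ℝ) * γ := by
      rw [← Finset.sum_subset (Finset.subset_univ (S.image InfinitePlace.mk))]
      · exact Finset.sum_congr rfl fun w hw => by simp only [hg, if_pos hw]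
      · intro w _ hw
        simp only [hg, if_neg hw, mul_zero]
    rw [h1, ← Finset.sum_mul]
    refine mul_le_mul_of_nonneg_right ?_ hγ
    rw [Finset.card_eq_sum_card_image InfinitePlace.mk S]
    push_cast
    refine Finset.sum_le_sum fun w _ => ?_
    have h2 : (S.filter fun σ => InfinitePlace.mk σ = w).card ≤ w.mult := by
      rw [← InfinitePlace.card_filter_mk_eq w]
      exact Finset.card_le_card fun σ hσ => by
        simp only [Finset.mem_filter, Finset.mem_univ, true_and] at hσ ⊢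
        exact hσ.2
    exact_mod_cast h2
  obtain ⟨i, j, hij⟩ := exists_minor_ne hy hz h
  have h0 := HasGS.prod hij
  have h1 := ((HasGS.height hy).add (HasGS.height hz)).add (hgs.const_mul (-1))
  have h2 := h0.le h1 (c := Real.log 2) ?_ ?_
  · linarith
  · intro w
    have hw : 0 < w (y i * z j - y j * z i) := InfinitePlace.pos_iff.mpr hij
    have hyw := nmi_pos w hy
    have hzw := nmi_pos w hz
    by_cases hmem : w ∈ S.image InfinitePlace.mk
    · obtain ⟨σ, hσ, rfl⟩ := Finset.mem_image.mp hmem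
      have h4 := minor_le_of_dl (cv_ne hy) (cv_ne hz) (hc σ hσ) i j
      rw [norm_cv, norm_cv] at h4
      have h5 : InfinitePlace.mk σ (y i * z j - y j * z i) ≤
          Real.exp (-γ) * (nmi (InfinitePlace.mk σ) y * nmi (InfinitePlace.mk σ) z) := by
        refine le_trans (le_of_eq ?_) h4
        rw [InfinitePlace.apply]
        simp only [cv, map_sub, map_mul]
      have h3 := Real.log_le_log hw h5
      rw [Real.log_mul (Real.exp_pos _).ne' (by positivity), Real.log_mul hyw.ne' hzw.ne',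
        Real.log_exp] at h3
      have hl := Real.log_pos one_lt_two
      simp only [hg, if_pos hmem]
      linarith
    · have h3 := Real.log_le_log hw (minor_inf w y z i j)
      rw [Real.log_mul (by norm_num) (by positivity), Real.log_mul hyw.ne' hzw.ne'] at h3
      simp only [hg, if_neg hmem]
      linarith
  · intro v
    have hv : 0 < v (y i * z j - y j * z i) := FinitePlace.pos_iff.mpr hij
    have hyv := nmf_pos v hy
    have hzv := nmf_pos v hz
    have h3 := Real.log_le_log hv (minor_fin v y z i j)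
    rw [one_mul, Real.log_mul hyv.ne' hzv.ne'] at h3
    linarith

end

end Pool.Agent.X115.DL
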