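import Mathlib
import Pool.Agent.X115.DL.Att1

/-!
Points with conjugates near an attracting cycle: the estimates.
-/

set_option autoImplicit false

namespace Pool.Agent.X115.DL

open NumberField Module MvPolynomial Filter Topology
open Pool.Agent.W238.Leh

noncomputable section

/-- integral forms with the same map, with the functional equation -/
lemma setup2 (K : Type) [Field K] [NumberField K] (N d : ℕ) (hd : 2 ≤ d)
    (F : Fin (N + 1) → MvPolynomial (Fin (N + 1)) K) (hF : ∀ i, (F i).IsHomogeneous d)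
    (hmor : ∀ z : Fin (N + 1) → AlgebraicClosure K, (∀ i, aeval z (F i) = 0) → z = 0) :
    ∃ C : ℝ, 0 ≤ C ∧ ∀ (L : Type) [Field L] [NumberField L] [Algebra K L]
      (x : Fin (N + 1) → L), x ≠ 0 →
      Tendsto (fun n : ℕ => Height.logHeight ((act F)^[n] x) /
          ((finrank ℚ L : ℝ) * (d : ℝ) ^ n)) atTop (𝓝 (canH F d x)) ∧
      0 ≤ canH F d x ∧
      (∀ c : L, c ≠ 0 → canH F d (c • x) = canH F d x) ∧
      ∀ n : ℕ, (act F)^[n] x ≠ 0 ∧ canH F d ((act F)^[n] x) = d ^ n * canH F d x ∧
        Height.logHeight ((act F)^[n] x) ≤ finrank ℚ L * (d ^ n * canH F d x + C) := by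
  classical
  set T : Finset K := Finset.univ.biUnion fun i => (F i).support.image (F i).coeff with hT
  obtain ⟨a, ha, haT⟩ := exists_denom T
  have haK : (a : K) ≠ 0 := by
    have : a ≠ 0 := by omega
    exact_mod_cast this
  set F' : Fin (N + 1) → MvPolynomial (Fin (N + 1)) K := fun i => C (a : K) * F i with hF'
  have hhom : ∀ i, (F' i).IsHomogeneous d := by
    intro i
    have h7 := (isHomogeneous_C (Fin (N + 1)) (a : K)).mul (hF i)
    rwa [zero_add] at h7
  have hint : ∀ i s, IsIntegral ℤ ((F' i).coeff s) := by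
    intro i s
    simp only [hF', coeff_C_mul]
    by_cases hs : s ∈ (F i).support
    · apply haT
      rw [hT]
      simp only [Finset.mem_biUnion, Finset.mem_image]
      exact ⟨i, Finset.mem_univ _, s, hs, rfl⟩
    · rw [notMem_support_iff.mp hs, mul_zero]
      exact isIntegral_zero
  have hmor' : ∀ z : Fin (N + 1) → AlgebraicClosure K, (∀ i, aeval z (F' i) = 0) → z = 0 := by
    intro z hz
    apply hmor
    intro i
    have h1 := hz i
    simp only [hF', map_mul, aeval_C] at h1
    refine (mul_eq_zero.mp h1).resolve_left ?_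
    rw [map_natCast]
    have : a ≠ 0 := by omega
    exact_mod_cast this
  obtain ⟨A, b, hB, -⟩ := final_int hd hhom hint hmor' one_pos
  refine ⟨hC A b, hB.hC_nonneg, fun L _ _ _ x hx => ?_⟩
  have haL : (a : L) ≠ 0 := by
    have : a ≠ 0 := by omega
    exact_mod_cast this
  have hact : ∀ z : Fin (N + 1) → L, act F' z = (a : L) • act F z := by
    intro z
    funext i
    simp only [act, hF', map_mul, map_natCast, Pi.smul_apply, smul_eq_mul]
  have hiter : ∀ (n : ℕ) (z : Fin (N + 1) → L), ∃ c : L, c ≠ 0 ∧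
      (act F')^[n] z = c • (act F)^[n] z := by
    intro n z
    induction n with
    | zero => exact ⟨1, one_ne_zero, by simp⟩
    | succ n ih =>
      obtain ⟨c, hc, h⟩ := ih
      refine ⟨a * c ^ d, mul_ne_zero haL (pow_ne_zero _ hc), ?_⟩
      rw [Function.iterate_succ_apply', Function.iterate_succ_apply', h, hact,
        act_smul hF, smul_smul]
  have hseq : ∀ z : Fin (N + 1) → L, (fun n : ℕ => Height.logHeight ((act F')^[n] z) /
      ((finrank ℚ L : ℝ) * (d : ℝ) ^ n)) = fun n : ℕ => Height.logHeight ((act F)^[n] z) /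
      ((finrank ℚ L : ℝ) * (d : ℝ) ^ n) := by
    intro z
    funext n
    obtain ⟨c, hc, h⟩ := hiter n z
    rw [h, Height.logHeight_smul_eq_logHeight _ hc]
  have hcan : ∀ z : Fin (N + 1) → L, canH F' d z = canH F d z := by
    intro z
    unfold canH
    rw [hseq]
  refine ⟨?_, ?_, fun c hc => canH_smul hF hc x, fun n => ?_⟩
  · have h1 := hB.canH_tendsto hd hx
    rw [hcan, hseq] at h1
    exact h1
  · rw [← hcan]
    exact hB.canH_nonneg hd hx
  · obtain ⟨c, hc, h⟩ := hiter n x
    have h0 := hB.iter_ne_zero hx n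
    refine ⟨?_, ?_, ?_⟩
    · intro h2
      rw [h2, smul_zero] at h
      exact h0 h
    · have h3 := hB.canH_iter hd hx n
      rw [h, canH_smul hhom hc, hcan, hcan] at h3
      exact h3
    · have h3 := hB.logHeight_le hd h0
      rw [hB.canH_iter hd hx, hcan] at h3
      rwa [h, Height.logHeight_smul_eq_logHeight _ hc] at h3


section iter

variable {K : Type} [Field K] [NumberField K] {L : Type} [Field L] [NumberField L] [Algebra K L]
  {N d : ℕ}

lemma cv_act (F : Fin (N + 1) → MvPolynomial (Fin (N + 1)) K) (τ : K →+* ℂ) (σ : L →+* ℂ)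
    (hσ : σ.comp (algebraMap K L) = τ) (x : Fin (N + 1) → L) :
    cv σ (act F x) = actC τ F (cv σ x) := by
  funext i
  simp only [cv, act, actC]
  rw [map_aeval, hσ]
  rfl

lemma cv_iter (F : Fin (N + 1) → MvPolynomial (Fin (N + 1)) K) (τ : K →+* ℂ) (σ : L →+* ℂ)
    (hσ : σ.comp (algebraMap K L) = τ) (x : Fin (N + 1) → L) (n : ℕ) :
    cv σ ((act F)^[n] x) = (actC τ F)^[n] (cv σ x) := by
  induction n with
  | zero => rfl
  | succ n ih => rw [Function.iterate_succ_apply', Function.iterate_succ_apply', cv_act F τ σ hσ, ih]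

/-- a general decay estimate for the distances to the periodic point -/
lemma decay (F : Fin (N + 1) → MvPolynomial (Fin (N + 1)) K) (τ : K →+* ℂ) (σ : L →+* ℂ)
    (hσ : σ.comp (algebraMap K L) = τ) (q : Fin (N + 1) → ℂ) (ℓ : ℕ)
    {x : Fin (N + 1) → L} (hx : ∀ n, (act F)^[n] x ≠ 0) {r : ℝ} (u : ℕ → ℝ) (hu0 : u 0 = r)
    (hur : ∀ n, u n ≤ r)
    (hstep : ∀ n, ∀ z : Fin (N + 1) → ℂ, z ≠ 0 → dl z q ≤ u n →
      dl ((actC τ F)^[ℓ] z) q ≤ u (n + 1))
    (h0 : dl (cv σ x) q ≤ r) (n : ℕ) : dl (cv σ ((act F)^[ℓ * n] x)) q ≤ u n := by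
  induction n with
  | zero => simpa [hu0] using h0
  | succ n ih =>
    have e : (act F)^[ℓ * (n + 1)] x = (act F)^[ℓ] ((act F)^[ℓ * n] x) := by
      rw [← Function.iterate_add_apply]
      congr 2
      ring
    rw [e, cv_iter F τ σ hσ]
    exact hstep n _ (cv_ne (hx _)) ih

end iter

end

end Pool.Agent.X115.DL
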