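import Mathlib
import Pool.Agent.X115.DL.Att2

/-!
Points with conjugates near an attracting cycle: the two theorems.
-/

set_option autoImplicit false

namespace Pool.Agent.X115.DL

open NumberField Module MvPolynomial Filter Topology
open Pool.Agent.W238.Leh

noncomputable section

/-- the wandering points -/
def Wan {K : Type} [Field K] {L : Type} [Field L] [Algebra K L] {N : ℕ}
    (F : Fin (N + 1) → MvPolynomial (Fin (N + 1)) K) (x : Fin (N + 1) → L) : Prop :=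
  ¬ ∃ m n : ℕ, m ≠ n ∧ ∃ c : L, c ≠ 0 ∧ (act F)^[n] x = c • (act F)^[m] x

/-- the vector over the extension -/
def up {K : Type} [Field K] (L : Type) [Field L] [Algebra K L] {N : ℕ} (Q : Fin (N + 1) → K) :
    Fin (N + 1) → L := fun i => algebraMap K L (Q i)

section basic

variable {K : Type} [Field K] {L : Type} [Field L] [Algebra K L] {N : ℕ}

lemma up_ne {Q : Fin (N + 1) → K} (hQ : Q ≠ 0) : up L Q ≠ 0 := by
  obtain ⟨i, hi⟩ := Function.ne_iff.mp hQ
  intro h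
  have := congrFun h i
  simp only [up, Pi.zero_apply, map_eq_zero] at this
  exact hi this

lemma act_up (F : Fin (N + 1) → MvPolynomial (Fin (N + 1)) K) (Q : Fin (N + 1) → K) :
    act F (up L Q) = up L (act F Q) := by
  funext i
  simp only [act, up]
  exact aeval_algebraMap_apply L Q (F i)

lemma iter_up (F : Fin (N + 1) → MvPolynomial (Fin (N + 1)) K) (Q : Fin (N + 1) → K) (n : ℕ) :
    (act F)^[n] (up L Q) = up L ((act F)^[n] Q) := by
  induction n with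
  | zero => rfl
  | succ n ih => rw [Function.iterate_succ_apply', Function.iterate_succ_apply', ih, act_up]

lemma Wan.iter {F : Fin (N + 1) → MvPolynomial (Fin (N + 1)) K} {x : Fin (N + 1) → L}
    (h : Wan F x) (j : ℕ) : Wan F ((act F)^[j] x) := by
  rintro ⟨m, n, hmn, c, hc, hh⟩
  rw [← Function.iterate_add_apply, ← Function.iterate_add_apply] at hh
  exact h ⟨m + j, n + j, by omega, c, hc, hh⟩

end basic

/-- the basic inequality -/
lemma core (K : Type) [Field K] [NumberField K] (N d : ℕ) (hd : 2 ≤ d)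
    (F : Fin (N + 1) → MvPolynomial (Fin (N + 1)) K) (hF : ∀ i, (F i).IsHomogeneous d)
    (hmor : ∀ z : Fin (N + 1) → AlgebraicClosure K, (∀ i, aeval z (F i) = 0) → z = 0)
    (τ : K →+* ℂ) (Q : Fin (N + 1) → K) (hQ : Q ≠ 0) (ℓ : ℕ) (hℓ : 1 ≤ ℓ)
    (hper : ∃ c : K, c ≠ 0 ∧ (act F)^[ℓ] Q = c • Q) :
    ∃ C : ℝ, 0 ≤ C ∧ ∀ (L : Type) [Field L] [NumberField L] [Algebra K L]
      (x : Fin (N + 1) → L), x ≠ 0 → Wan F x →
      0 ≤ canH F d x ∧ (∀ n, (act F)^[n] x ≠ 0 ∧ canH F d ((act F)^[n] x) = d ^ n * canH F d x) ∧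
      ∀ (n : ℕ) (S : Finset (L →+* ℂ)) (γ : ℝ), 0 ≤ γ →
        (∀ σ ∈ S, σ.comp (algebraMap K L) = τ ∧
          dl (cv σ ((act F)^[n] x)) (cv τ Q) ≤ Real.exp (-γ)) →
        S.card * γ ≤ finrank ℚ L * (d ^ n * canH F d x + C) := by
  obtain ⟨C, hC, h⟩ := setup2 K N d hd F hF hmor
  refine ⟨2 * C + Real.log 2, by have := Real.log_pos one_lt_two; linarith, ?_⟩
  intro L _ _ _ x hx hw
  obtain ⟨-, h2, -, h4⟩ := h L x hx
  refine ⟨h2, fun n => ⟨(h4 n).1, (h4 n).2.1⟩, fun n S γ hγ hS => ?_⟩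
  have hQL : up L Q ≠ 0 := up_ne hQ
  obtain ⟨-, g2, g3, g4⟩ := h L (up L Q) hQL
  obtain ⟨c, hc, hcQ⟩ := hper
  have hcL : algebraMap K L c ≠ 0 := by
    rwa [Ne, map_eq_zero]
  have hitQ : (act F)^[ℓ] (up L Q) = algebraMap K L c • up L Q := by
    rw [iter_up, hcQ]
    funext i
    simp [up]
  have hcan0 : canH F d (up L Q) = 0 := by
    have h5 := (g4 ℓ).2.1
    rw [hitQ, g3 _ hcL] at h5
    have h6 : (2 : ℝ) ≤ d ^ ℓ := by
      have : 2 ≤ d ^ ℓ := hd.trans (Nat.le_self_pow (by omega) d)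
      exact_mod_cast this
    nlinarith
  have hnp : ¬ ∃ c : L, c ≠ 0 ∧ (act F)^[n] x = c • up L Q := by
    rintro ⟨b, hb, hbx⟩
    obtain ⟨b', hb', hh⟩ := iter_smul hF hb (up L Q) ℓ
    rw [← hbx, hitQ] at hh
    refine hw ⟨n, ℓ + n, by omega, b' * algebraMap K L c * b⁻¹,
      mul_ne_zero (mul_ne_zero hb' hcL) (inv_ne_zero hb), ?_⟩
    rw [Function.iterate_add_apply, hh, hbx, smul_smul, smul_smul, mul_assoc _ b⁻¹ b,
      inv_mul_cancel₀ hb, mul_one]
  have h5 := globalInf (h4 n).1 hQL hnp S hγ (fun σ hσ => by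
    have e : cv σ (up L Q) = cv τ Q := by
      funext i
      simp only [cv, up]
      rw [← (hS σ hσ).1]
      rfl
    rw [e]
    exact (hS σ hσ).2)
  have h6 := (h4 n).2.2
  have h7 := (g4 0).2.2
  rw [Function.iterate_zero, id, hcan0, mul_zero, zero_add] at h7
  calc (S.card : ℝ) * γ ≤ _ := h5
    _ ≤ finrank ℚ L * (d ^ n * canH F d x + C) + finrank ℚ L * C +
        finrank ℚ L * Real.log 2 := by linarith
    _ = _ := by ring

lemma exists_finset {L : Type} [Field L] [NumberField L] (P : (L →+* ℂ) → Prop) :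
    ∃ S : Finset (L →+* ℂ), (∀ σ, σ ∈ S ↔ P σ) ∧ S.card = Nat.card {σ : L →+* ℂ // P σ} ∧
      (S.card : ℝ) ≤ finrank ℚ L := by
  classical
  refine ⟨Finset.univ.filter P, fun σ => by simp, ?_, ?_⟩
  · rw [Nat.card_eq_fintype_card, Fintype.card_subtype]
  · have h1 : (Finset.univ.filter P).card ≤ Fintype.card (L →+* ℂ) := by
      rw [← Finset.card_univ]
      exact Finset.card_le_card (Finset.filter_subset _ _)
    rw [Embeddings.card] at h1
    exact_mod_cast h1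

/-- attracting cycles -/
theorem attracting (K : Type) [Field K] [NumberField K] (N d : ℕ) (hd : 2 ≤ d)
    (F : Fin (N + 1) → MvPolynomial (Fin (N + 1)) K) (hF : ∀ i, (F i).IsHomogeneous d)
    (hmor : ∀ z : Fin (N + 1) → AlgebraicClosure K, (∀ i, aeval z (F i) = 0) → z = 0)
    (τ : K →+* ℂ) (Q : Fin (N + 1) → K) (hQ : Q ≠ 0) (ℓ : ℕ) (hℓ : 1 ≤ ℓ)
    (hper : ∃ c : K, c ≠ 0 ∧ (act F)^[ℓ] Q = c • Q) (r ρ : ℝ) (hr : 0 < r) (hρ : ρ < 1)
    (hatt : ∀ z : Fin (N + 1) → ℂ, z ≠ 0 → dl z (cv τ Q) ≤ r →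
      dl ((actC τ F)^[ℓ] z) (cv τ Q) ≤ ρ * dl z (cv τ Q)) :
    ∃ C : ℝ, 0 < C ∧ ∀ (L : Type) [Field L] [NumberField L] [Algebra K L]
      (x : Fin (N + 1) → L), x ≠ 0 → Wan F x → ∀ j m : ℕ, 1 ≤ m →
        m ≤ Nat.card {σ : L →+* ℂ // σ.comp (algebraMap K L) = τ ∧
          dl (cv σ ((act F)^[j] x)) (cv τ Q) ≤ r} →
        Real.exp (-(C * (finrank K L / m))) ≤ d ^ j * canH F d x := by
  obtain ⟨C₁, hC₁, h⟩ := core K N d hd F hF hmor τ Q hQ ℓ hℓ hper
  set ρ' : ℝ := max ρ (1 / 2) with hρ'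
  have hρ0 : 0 < ρ' := lt_of_lt_of_le (by norm_num) (le_max_right _ _)
  have hρ1 : ρ' < 1 := max_lt hρ (by norm_num)
  set lam : ℝ := -Real.log ρ' with hlam
  have hlam0 : 0 < lam := by
    rw [hlam]
    have := Real.log_neg hρ0 hρ1
    linarith
  set R : ℝ := max r 1 with hR
  have hR1 : 1 ≤ R := le_max_right _ _
  have hlR : 0 ≤ Real.log R := Real.log_nonneg hR1
  have hE : (0 : ℝ) < finrank ℚ K := finrank_pos'
  have hd1 : (1 : ℝ) < d := by exact_mod_cast (by omega : 1 < d)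
  have hld : 0 < Real.log d := Real.log_pos hd1
  set C₂ : ℝ := (C₁ + 1) / lam + Real.log R / lam + 1 with hC₂
  have hC₂0 : 0 < C₂ := by positivity
  refine ⟨ℓ * Real.log d * finrank ℚ K * C₂, by positivity, ?_⟩
  intro L _ _ _ x hx hw j m hm hcard
  obtain ⟨hH0, hit, -⟩ := h L x hx hw
  set y := (act F)^[j] x with hy
  have hy0 : y ≠ 0 := (hit j).1
  obtain ⟨hY0, hity, hmain⟩ := h L y hy0 (hw.iter j)
  obtain ⟨S, hS, hScard, hSle⟩ := exists_finset (L := L)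
    (fun σ => σ.comp (algebraMap K L) = τ ∧ dl (cv σ y) (cv τ Q) ≤ r)
  have hKL : (finrank ℚ L : ℝ) = finrank ℚ K * finrank K L := by
    exact_mod_cast (Module.finrank_mul_finrank ℚ K L).symm
  have hL : (0 : ℝ) < finrank ℚ L := finrank_pos'
  have hm0 : (0 : ℝ) < m := by exact_mod_cast hm
  have hmS : (m : ℝ) ≤ S.card := by
    rw [hScard]
    exact_mod_cast hcard
  have hmL : (m : ℝ) ≤ finrank ℚ L := hmS.trans hSle
  set X : ℝ := finrank ℚ L / m with hX
  have hX1 : 1 ≤ X := by rwa [hX, one_le_div hm0]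
  obtain ⟨n, hn1, hn2⟩ : ∃ n : ℕ, (X * (C₁ + 1) + Real.log R) / lam ≤ n ∧
      (n : ℝ) ≤ (X * (C₁ + 1) + Real.log R) / lam + 1 :=
    ⟨⌈(X * (C₁ + 1) + Real.log R) / lam⌉₊, Nat.le_ceil _,
      (Nat.ceil_lt_add_one (by positivity)).le⟩
  set γ : ℝ := n * lam - Real.log R with hγ
  have hγ1 : X * (C₁ + 1) ≤ γ := by
    rw [div_le_iff₀ hlam0] at hn1
    linarith
  have hγ0 : 0 ≤ γ := le_trans (by positivity) hγ1
  have hclose : ∀ σ ∈ S, σ.comp (algebraMap K L) = τ ∧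
      dl (cv σ ((act F)^[ℓ * n] y)) (cv τ Q) ≤ Real.exp (-γ) := by
    intro σ hσ
    obtain ⟨h1, h2⟩ := (hS σ).mp hσ
    refine ⟨h1, ?_⟩
    have h3 := decay F τ σ h1 (cv τ Q) ℓ (fun n => (hity n).1) (r := r)
      (fun n => ρ' ^ n * r) (by simp)
      (fun n => mul_le_of_le_one_left hr.le (pow_le_one₀ hρ0.le hρ1.le))
      (fun n z hz hzn => by
        have h4 : dl z (cv τ Q) ≤ r :=
          hzn.trans (mul_le_of_le_one_left hr.le (pow_le_one₀ hρ0.le hρ1.le))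
        refine (hatt z hz h4).trans ?_
        calc ρ * dl z (cv τ Q) ≤ ρ' * dl z (cv τ Q) :=
              mul_le_mul_of_nonneg_right (le_max_left _ _) (dl_nonneg _ _)
          _ ≤ ρ' * (ρ' ^ n * r) := mul_le_mul_of_nonneg_left hzn hρ0.le
          _ = _ := by ring) h2 n
    refine h3.trans ?_
    have e : Real.exp (-γ) = ρ' ^ n * R := by
      rw [hγ, hlam]
      have : -(n * -Real.log ρ' - Real.log R) = n * Real.log ρ' + Real.log R := by ring
      rw [this, Real.exp_add, Real.exp_log (by linarith), ← Real.log_pow,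
        Real.exp_log (pow_pos hρ0 n)]
    rw [e]
    exact mul_le_mul_of_nonneg_left (le_max_left _ _) (pow_pos hρ0 n).le
  have h1 := hmain (ℓ * n) S γ hγ0 hclose
  have h2 : (finrank ℚ L : ℝ) * (C₁ + 1) ≤ finrank ℚ L * (d ^ (ℓ * n) * canH F d y + C₁) := by
    refine le_trans ?_ h1
    calc (finrank ℚ L : ℝ) * (C₁ + 1) = m * (X * (C₁ + 1)) := by
          rw [hX]; field_simp
      _ ≤ S.card * γ := mul_le_mul hmS hγ1 (by positivity) (by positivity)
  have h3 := le_of_mul_le_mul_left h2 hL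
  have h4 : 1 ≤ (d : ℝ) ^ (ℓ * n) * canH F d y := by linarith
  rw [← (hit j).2]
  have hdn : (0 : ℝ) < (d : ℝ) ^ (ℓ * n) := by positivity
  have h5 : 1 / (d : ℝ) ^ (ℓ * n) ≤ canH F d y := by
    rw [div_le_iff₀ hdn]
    linarith
  refine le_trans ?_ h5
  have e : 1 / (d : ℝ) ^ (ℓ * n) = Real.exp (-(ℓ * n * Real.log d)) := by
    rw [Real.exp_neg, one_div]
    congr 1
    rw [← Nat.cast_mul, ← Real.log_pow, Real.exp_log hdn]
  rw [e, Real.exp_le_exp, neg_le_neg_iff]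
  have h6 : (n : ℝ) ≤ X * C₂ := by
    refine hn2.trans ?_
    have e2 : (X * (C₁ + 1) + Real.log R) / lam + 1 =
        X * ((C₁ + 1) / lam) + Real.log R / lam + 1 := by ring
    rw [e2, hC₂]
    have h7 : 0 ≤ Real.log R / lam := by positivity
    nlinarith
  have e3 : (ℓ : ℝ) * Real.log d * finrank ℚ K * C₂ * (finrank K L / m) =
      ℓ * Real.log d * (X * C₂) := by
    rw [hX, hKL]; ring
  rw [e3]
  have h8 : (0 : ℝ) ≤ ℓ * Real.log d := by positivity
  calc (ℓ : ℝ) * n * Real.log d = ℓ * Real.log d * n := by ring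
    _ ≤ _ := mul_le_mul_of_nonneg_left h6 h8

end

end Pool.Agent.X115.DL
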