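import Mathlib
import Pool.Agent.X115.DL.Att3

/-!
Points with conjugates near a superattracting cycle.
-/

set_option autoImplicit false

namespace Pool.Agent.X115.DL

open NumberField Module MvPolynomial Filter Topology
open Pool.Agent.W238.Leh

noncomputable section

/-- a power of `e` of the right size -/
lemma exists_rpow_nat {e X : ℝ} (he : 1 < e) : ∃ n : ℕ, X ≤ e ^ n ∧ e ^ n ≤ e * max 1 X := by
  classical
  have hex : ∃ n : ℕ, X ≤ e ^ n := by
    obtain ⟨n, hn⟩ := pow_unbounded_of_one_lt X he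
    exact ⟨n, hn.le⟩
  refine ⟨Nat.find hex, Nat.find_spec hex, ?_⟩
  rcases Nat.eq_zero_or_pos (Nat.find hex) with h0 | h0
  · rw [h0, pow_zero]
    have : (1 : ℝ) ≤ max 1 X := le_max_left _ _
    nlinarith
  · have h1 := Nat.find_min hex (m := Nat.find hex - 1) (by omega)
    push Not at h1
    have h2 : e ^ Nat.find hex = e * e ^ (Nat.find hex - 1) := by
      rw [← pow_succ']
      congr 1
      omega
    rw [h2]
    exact mul_le_mul_of_nonneg_left (h1.le.trans (le_max_right _ _)) (by linarith)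

theorem superattracting (K : Type) [Field K] [NumberField K] (N d : ℕ) (hd : 2 ≤ d)
    (F : Fin (N + 1) → MvPolynomial (Fin (N + 1)) K) (hF : ∀ i, (F i).IsHomogeneous d)
    (hmor : ∀ z : Fin (N + 1) → AlgebraicClosure K, (∀ i, aeval z (F i) = 0) → z = 0)
    (τ : K →+* ℂ) (Q : Fin (N + 1) → K) (hQ : Q ≠ 0) (ℓ : ℕ) (hℓ : 1 ≤ ℓ)
    (hper : ∃ c : K, c ≠ 0 ∧ (act F)^[ℓ] Q = c • Q) (r A e : ℝ) (hr : 0 < r) (he : 1 < e)
    (hatt : ∀ z : Fin (N + 1) → ℂ, z ≠ 0 → dl z (cv τ Q) ≤ r →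
      dl ((actC τ F)^[ℓ] z) (cv τ Q) ≤ A * dl z (cv τ Q) ^ e) :
    ∃ r' c : ℝ, 0 < r' ∧ 0 < c ∧ ∀ (L : Type) [Field L] [NumberField L] [Algebra K L]
      (x : Fin (N + 1) → L), x ≠ 0 → Wan F x → ∀ j m : ℕ, 1 ≤ m →
        m ≤ Nat.card {σ : L →+* ℂ // σ.comp (algebraMap K L) = τ ∧
          dl (cv σ ((act F)^[j] x)) (cv τ Q) ≤ r'} →
        c * (m / finrank K L) ^ (ℓ * Real.log d / Real.log e) ≤ d ^ j * canH F d x := by
  obtain ⟨C₁, hC₁, h⟩ := core K N d hd F hF hmor τ Q hQ ℓ hℓ hper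
  set A' : ℝ := max A 1 with hA'
  have hA1 : 1 ≤ A' := le_max_right _ _
  set B : ℝ := max (A' ^ (1 / (e - 1))) (1 / (2 * r)) with hB
  have he1 : 0 < e - 1 := by linarith
  have hBA : 1 ≤ B := le_trans (Real.one_le_rpow hA1 (by positivity)) (le_max_left _ _)
  have hB0 : 0 < B := by linarith
  have hBr : 1 / (2 * B) ≤ r := by
    have h1 : 1 / (2 * r) ≤ B := le_max_right _ _
    rw [div_le_iff₀ (by positivity)] at h1 ⊢
    linarith
  have hAB : A' ≤ B ^ (e - 1) := by
    calc A' = (A' ^ (1 / (e - 1))) ^ (e - 1) := by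
          rw [← Real.rpow_mul (by linarith), one_div, inv_mul_cancel₀ he1.ne', Real.rpow_one]
      _ ≤ B ^ (e - 1) := Real.rpow_le_rpow (by positivity) (le_max_left _ _) he1.le
  have hE : (0 : ℝ) < finrank ℚ K := finrank_pos'
  have hd1 : (1 : ℝ) < d := by exact_mod_cast (by omega : 1 < d)
  have hld : 0 < Real.log d := Real.log_pos hd1
  have hle : 0 < Real.log e := Real.log_pos he
  have hl2 : 0 < Real.log 2 := Real.log_pos one_lt_two
  set κ : ℝ := ℓ * Real.log d / Real.log e with hκ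
  set M : ℝ := max 1 ((C₁ + 1) / Real.log 2) with hM
  have hM1 : 1 ≤ M := le_max_left _ _
  set C₂ : ℝ := e * M * finrank ℚ K with hC₂
  have hC₂0 : 0 < C₂ := by positivity
  have he0 : 0 < e := by linarith
  refine ⟨1 / (2 * B), (1 / C₂) ^ κ, by positivity, by positivity, ?_⟩
  intro L _ _ _ x hx hw j m hm hcard
  obtain ⟨hH0, hit, -⟩ := h L x hx hw
  set y := (act F)^[j] x with hy
  have hy0 : y ≠ 0 := (hit j).1
  obtain ⟨hY0, hity, hmain⟩ := h L y hy0 (hw.iter j)
  obtain ⟨S, hS, hScard, hSle⟩ := exists_finset (L := L)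
    (fun σ => σ.comp (algebraMap K L) = τ ∧ dl (cv σ y) (cv τ Q) ≤ 1 / (2 * B))
  have hKL : (finrank ℚ L : ℝ) = finrank ℚ K * finrank K L := by
    exact_mod_cast (Module.finrank_mul_finrank ℚ K L).symm
  have hL : (0 : ℝ) < finrank ℚ L := finrank_pos'
  have hm0 : (0 : ℝ) < m := by exact_mod_cast hm
  have hmS : (m : ℝ) ≤ S.card := by
    rw [hScard]
    exact_mod_cast hcard
  have hmL : (m : ℝ) ≤ finrank ℚ L := hmS.trans hSle
  set X : ℝ := finrank ℚ L / m with hX
  have hX1 : 1 ≤ X := by rwa [hX, one_le_div hm0]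
  obtain ⟨n, hn1, hn2⟩ := exists_rpow_nat (X := X * ((C₁ + 1) / Real.log 2)) he
  set γ : ℝ := e ^ n * Real.log 2 with hγ
  have hγ1 : X * (C₁ + 1) ≤ γ := by
    have h1 := mul_le_mul_of_nonneg_right hn1 hl2.le
    have e1 : X * ((C₁ + 1) / Real.log 2) * Real.log 2 = X * (C₁ + 1) := by field_simp
    rwa [e1] at h1
  have hγ0 : 0 ≤ γ := by positivity
  set u : ℕ → ℝ := fun n => (2 : ℝ) ^ (-(e ^ n : ℝ)) / B with hu
  have hu0 : u 0 = 1 / (2 * B) := by
    simp only [hu, pow_zero]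
    rw [Real.rpow_neg_one]
    field_simp
  have hur : ∀ n, u n ≤ 1 / (2 * B) := by
    intro n
    rw [← hu0]
    simp only [hu]
    refine div_le_div_of_nonneg_right ?_ hB0.le
    rw [Real.rpow_le_rpow_left_iff one_lt_two, pow_zero, neg_le_neg_iff]
    exact one_le_pow₀ he.le
  have hun0 : ∀ n, 0 < u n := fun n => by simp only [hu]; positivity
  have hclose : ∀ σ ∈ S, σ.comp (algebraMap K L) = τ ∧
      dl (cv σ ((act F)^[ℓ * n] y)) (cv τ Q) ≤ Real.exp (-γ) := by
    intro σ hσ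
    obtain ⟨h1, h2⟩ := (hS σ).mp hσ
    refine ⟨h1, ?_⟩
    have h3 := decay F τ σ h1 (cv τ Q) ℓ (fun n => (hity n).1) (r := 1 / (2 * B))
      u hu0 hur
      (fun n z hz hzn => by
        have h4 : dl z (cv τ Q) ≤ r := (hzn.trans (hur n)).trans hBr
        refine (hatt z hz h4).trans ?_
        calc A * dl z (cv τ Q) ^ e ≤ A' * dl z (cv τ Q) ^ e :=
              mul_le_mul_of_nonneg_right (le_max_left _ _)
                (Real.rpow_nonneg (dl_nonneg _ _) _)
          _ ≤ A' * u n ^ e := mul_le_mul_of_nonneg_left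
                (Real.rpow_le_rpow (dl_nonneg _ _) hzn he0.le) (by linarith)
          _ ≤ B ^ (e - 1) * u n ^ e := mul_le_mul_of_nonneg_right hAB
                (Real.rpow_nonneg (hun0 n).le _)
          _ = u (n + 1) := by
            simp only [hu]
            rw [Real.div_rpow (by positivity) hB0.le, ← Real.rpow_mul (by norm_num),
              Real.rpow_sub hB0, Real.rpow_one]
            have e1 : -e ^ n * e = -e ^ (n + 1) := by ring
            rw [e1]
            have hBe : B ^ e ≠ 0 := (Real.rpow_pos_of_pos hB0 e).ne'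
            field_simp) h2 n
    refine h3.trans ?_
    have e1 : Real.exp (-γ) = (2 : ℝ) ^ (-(e ^ n : ℝ)) := by
      rw [Real.rpow_def_of_pos two_pos, hγ]
      congr 1
      ring
    rw [e1]
    simp only [hu]
    exact div_le_self (by positivity) hBA
  have h1 := hmain (ℓ * n) S γ hγ0 hclose
  have h2 : (finrank ℚ L : ℝ) * (C₁ + 1) ≤ finrank ℚ L * (d ^ (ℓ * n) * canH F d y + C₁) := by
    refine le_trans ?_ h1
    calc (finrank ℚ L : ℝ) * (C₁ + 1) = m * (X * (C₁ + 1)) := by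
          rw [hX]; field_simp
      _ ≤ S.card * γ := mul_le_mul hmS hγ1 (by positivity) (by positivity)
  have h3 := le_of_mul_le_mul_left h2 hL
  have h4 : 1 ≤ (d : ℝ) ^ (ℓ * n) * canH F d y := by linarith
  rw [← (hit j).2]
  have hdn : (0 : ℝ) < (d : ℝ) ^ (ℓ * n) := by positivity
  have h5 : 1 / (d : ℝ) ^ (ℓ * n) ≤ canH F d y := by
    rw [div_le_iff₀ hdn]
    linarith
  refine le_trans ?_ h5
  -- the exponent
  have hen : (0 : ℝ) < e ^ n := by positivity
  have e2 : (d : ℝ) ^ (ℓ * n) = (e ^ n : ℝ) ^ κ := by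
    rw [Real.rpow_def_of_pos hen, Real.log_pow, hκ]
    have e3 : (n : ℝ) * Real.log e * (ℓ * Real.log d / Real.log e) = (ℓ * n : ℕ) * Real.log d := by
      push_cast
      field_simp
    rw [e3, ← Real.log_pow, Real.exp_log hdn]
  have h6 : e ^ n ≤ C₂ * (finrank K L / m) := by
    refine hn2.trans ?_
    have h7 : max 1 (X * ((C₁ + 1) / Real.log 2)) ≤ X * M := by
      refine max_le ?_ ?_
      · nlinarith
      · exact mul_le_mul_of_nonneg_left (le_max_right _ _) (by linarith)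
    calc e * max 1 (X * ((C₁ + 1) / Real.log 2)) ≤ e * (X * M) :=
          mul_le_mul_of_nonneg_left h7 he0.le
      _ = C₂ * (finrank K L / m) := by rw [hX, hKL, hC₂]; ring
  have hDm : (0 : ℝ) < finrank K L / m := by
    have h8 : 0 < C₂ * ((finrank K L : ℝ) / m) := lt_of_lt_of_le hen h6
    exact (mul_pos_iff_of_pos_left hC₂0).mp h8
  have hκ0 : 0 ≤ κ := by rw [hκ]; positivity
  have e4 : (1 / C₂) ^ κ * ((m : ℝ) / finrank K L) ^ κ =
      1 / (C₂ * (finrank K L / m)) ^ κ := by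
    rw [← Real.mul_rpow (by positivity) (by positivity)]
    have e5 : 1 / C₂ * ((m : ℝ) / finrank K L) = (C₂ * (finrank K L / m))⁻¹ := by
      rw [mul_inv, inv_div, one_div]
    rw [e5, Real.inv_rpow (by positivity), one_div]
  rw [e4, e2]
  refine one_div_le_one_div_of_le (by positivity) ?_
  exact Real.rpow_le_rpow hen.le h6 hκ0

end

end Pool.Agent.X115.DL
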