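import Mathlib
import Pool.Agent.X115.DL.Pre2

/-!
Maps whose differential vanishes modulo `a`: congruences improve under iteration.
-/

set_option autoImplicit false

namespace Pool.Agent.X115.DL

open NumberField Module MvPolynomial Filter Topology
open Pool.Agent.W238.Leh

noncomputable section

section taylor

variable {R : Type*} [CommRing R] {L : Type} [Field L] [NumberField L] {N : ℕ}

lemma v_sub_le (v : FinitePlace L) (x y : L) : v (x - y) ≤ max (v x) (v y) := by
  have h3 := FinitePlace.add_le v x (-y)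
  have h4 : v (-y) = v y := by
    rw [← neg_one_mul, map_mul]
    have h5 : v (-1 : L) = 1 := by
      have h6 : v (-1 : L) * v (-1 : L) = 1 := by
        rw [← map_mul]; simp
      have h7 := v_nonneg v (-1 : L)
      nlinarith
    rw [h5, one_mul]
  rw [h4] at h3
  rw [sub_eq_add_neg]
  exact h3

lemma v_add_le' (v : FinitePlace L) {x y : L} {B : ℝ} (hx : v x ≤ B) (hy : v y ≤ B) :
    v (x + y) ≤ B := (FinitePlace.add_le v x y).trans (max_le hx hy)

lemma taylor (v : FinitePlace L) (φ : R →+* L) (hφ : ∀ r, v (φ r) ≤ 1)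
    (w h : Fin (N + 1) → L) (hw : ∀ i, v (w i) ≤ 1) {r : ℝ} (hr0 : 0 ≤ r) (hr1 : r ≤ 1)
    (hh : ∀ i, v (h i) ≤ r) (p : MvPolynomial (Fin (N + 1)) R) :
    v (eval₂ φ w p) ≤ 1 ∧ v (eval₂ φ (w + h) p - eval₂ φ w p) ≤ r ∧
    v (eval₂ φ (w + h) p - eval₂ φ w p - ∑ j, eval₂ φ w (pderiv j p) * h j) ≤ r ^ 2 := by
  induction p using MvPolynomial.induction_on with
  | C c =>
    refine ⟨by simpa using hφ c, ?_, ?_⟩
    · simp only [eval₂_C, sub_self, map_zero]
      exact hr0
    · simp only [eval₂_C, sub_self, pderiv_C, eval₂_zero, zero_mul, Finset.sum_const_zero,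
        map_zero]
      positivity
  | add p q hp hq =>
    obtain ⟨p1, p2, p3⟩ := hp
    obtain ⟨q1, q2, q3⟩ := hq
    refine ⟨?_, ?_, ?_⟩
    · rw [eval₂_add]
      exact v_add_le' v p1 q1
    · rw [eval₂_add, eval₂_add]
      have e : eval₂ φ (w + h) p + eval₂ φ (w + h) q - (eval₂ φ w p + eval₂ φ w q) =
        (eval₂ φ (w + h) p - eval₂ φ w p) + (eval₂ φ (w + h) q - eval₂ φ w q) := by ring
      rw [e]
      exact v_add_le' v p2 q2
    · simp only [eval₂_add, map_add, add_mul, Finset.sum_add_distrib]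
      have e : eval₂ φ (w + h) p + eval₂ φ (w + h) q - (eval₂ φ w p + eval₂ φ w q) -
          (∑ j, eval₂ φ w (pderiv j p) * h j + ∑ j, eval₂ φ w (pderiv j q) * h j) =
        (eval₂ φ (w + h) p - eval₂ φ w p - ∑ j, eval₂ φ w (pderiv j p) * h j) +
          (eval₂ φ (w + h) q - eval₂ φ w q - ∑ j, eval₂ φ w (pderiv j q) * h j) := by ring
      rw [e]
      exact v_add_le' v p3 q3
  | mul_X p k hp =>
    obtain ⟨p1, p2, p3⟩ := hp
    have hk := hw k
    have hhk := hh k
    have hmul : ∀ {x y : L} {A B : ℝ}, v x ≤ A → v y ≤ B → v (x * y) ≤ A * B := by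
      intro x y A B hx hy
      rw [map_mul]
      exact mul_le_mul hx hy (v_nonneg v _) ((v_nonneg v _).trans hx)
    refine ⟨?_, ?_, ?_⟩
    · rw [eval₂_mul, eval₂_X]
      simpa using hmul p1 hk
    · rw [eval₂_mul, eval₂_mul, eval₂_X, eval₂_X]
      have e : eval₂ φ (w + h) p * (w + h) k - eval₂ φ w p * w k =
          (eval₂ φ (w + h) p - eval₂ φ w p) * w k + (eval₂ φ (w + h) p) * h k := by
        simp only [Pi.add_apply]; ring
      rw [e]
      have h1 : v (eval₂ φ (w + h) p) ≤ 1 := by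
        have e2 : eval₂ φ (w + h) p = (eval₂ φ (w + h) p - eval₂ φ w p) + eval₂ φ w p := by ring
        rw [e2]
        exact v_add_le' v (p2.trans hr1) p1
      refine v_add_le' v ?_ ?_
      · simpa using hmul p2 hk
      · simpa using hmul h1 hhk
    · have hs : ∑ j, eval₂ φ w (pderiv j (p * X k)) * h j =
          (∑ j, eval₂ φ w (pderiv j p) * h j) * w k + eval₂ φ w p * h k := by
        have h1 : ∀ j, eval₂ φ w (pderiv j (p * X k)) * h j =
            eval₂ φ w (pderiv j p) * h j * w k + (if j = k then eval₂ φ w p * h k else 0) := by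
          intro j
          rw [pderiv_mul, eval₂_add, eval₂_mul, eval₂_mul, eval₂_X]
          by_cases hjk : j = k
          · subst hjk
            rw [pderiv_X_self, eval₂_one, if_pos rfl]
            ring
          · rw [pderiv_X_of_ne (fun h => hjk h.symm), eval₂_zero, if_neg hjk]
            ring
        simp only [h1]
        rw [Finset.sum_add_distrib, ← Finset.sum_mul, Finset.sum_ite_eq' Finset.univ k]
        simp
      rw [hs, eval₂_mul, eval₂_mul, eval₂_X, eval₂_X]
      have e : eval₂ φ (w + h) p * (w + h) k - eval₂ φ w p * w k -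
          ((∑ j, eval₂ φ w (pderiv j p) * h j) * w k + eval₂ φ w p * h k) =
          (eval₂ φ (w + h) p - eval₂ φ w p - ∑ j, eval₂ φ w (pderiv j p) * h j) * w k +
          (eval₂ φ (w + h) p - eval₂ φ w p) * h k := by
        simp only [Pi.add_apply]; ring
      rw [e]
      refine v_add_le' v ?_ ?_
      · simpa using hmul p3 hk
      · rw [sq]
        exact hmul p2 hhk

end taylor

section loc

variable {K : Type} [Field K] [NumberField K] {L : Type} [Field L] [NumberField L] [Algebra K L]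
  {N d : ℕ}

/-- the coefficients of `F` are integral and the partial derivatives are divisible by `a` -/
def DerivZero (F : Fin (N + 1) → MvPolynomial (Fin (N + 1)) K) (a : 𝓞 K) : Prop :=
  ∃ G : Fin (N + 1) → MvPolynomial (Fin (N + 1)) (𝓞 K),
    (∀ i, F i = (G i).map (algebraMap (𝓞 K) K)) ∧ ∀ i j, C a ∣ pderiv j (G i)

/-- the image of `a` -/
def im (L : Type) [Field L] [Algebra K L] (a : 𝓞 K) : L := algebraMap K L (a : K)

lemma exists_max (v : FinitePlace L) (y : Fin (N + 1) → L) : ∃ i, v (y i) = nmf v y :=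
  exists_eq_ciSup_of_finite (f := fun i => v (y i))

lemma local_step (F : Fin (N + 1) → MvPolynomial (Fin (N + 1)) K)
    (hF : ∀ i, (F i).IsHomogeneous d) {a : 𝓞 K} (hda : DerivZero F a) (v : FinitePlace L)
    (hgood : ∀ z : Fin (N + 1) → L, nmf v (act F z) = nmf v z ^ d)
    {y z : Fin (N + 1) → L} (hy : y ≠ 0) (hz : z ≠ 0) {r : ℝ} (hr0 : 0 ≤ r)
    (hr : r ≤ v (im L a)) (hc : Cg v r y z) :
    Cg v (v (im L a) * r) (act F y) (act F z) := by
  obtain ⟨G, hG, hdiv⟩ := hda
  set φ : 𝓞 K →+* L := (algebraMap K L).comp (algebraMap (𝓞 K) K) with hφ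
  have hφ1 : ∀ r, v (φ r) ≤ 1 := fun r => v_int_le v ((r.isIntegral_coe).algebraMap)
  have ha1 : v (im L a) ≤ 1 := hφ1 a
  have hr1 : r ≤ 1 := hr.trans ha1
  have hact : ∀ (x : Fin (N + 1) → L) i, act F x i = eval₂ φ x (G i) := by
    intro x i
    rw [act, hG i, aeval_def, eval₂_map]
  obtain ⟨i₀, hi₀⟩ := exists_max v y
  obtain ⟨j₀, hj₀⟩ := exists_max v z
  have hy0 : y i₀ ≠ 0 := by
    intro h
    have := nmf_pos v hy
    rw [← hi₀, h, map_zero] at this
    exact lt_irrefl _ this
  have hz0 : z j₀ ≠ 0 := by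
    intro h
    have := nmf_pos v hz
    rw [← hj₀, h, map_zero] at this
    exact lt_irrefl _ this
  set y' : Fin (N + 1) → L := (y i₀)⁻¹ • y with hy'
  set z' : Fin (N + 1) → L := (z j₀)⁻¹ • z with hz'
  have hny : nmf v y' = 1 := by
    rw [hy', nmf_smul, ← hi₀, ← map_mul, inv_mul_cancel₀ hy0, map_one]
  have hnz : nmf v z' = 1 := by
    rw [hz', nmf_smul, ← hj₀, ← map_mul, inv_mul_cancel₀ hz0, map_one]
  have hzj : z' j₀ = 1 := by
    simp only [hz', Pi.smul_apply, smul_eq_mul]
    exact inv_mul_cancel₀ hz0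
  have hc' : Cg v r y' z' := hc.smul _ _
  set u : L := y' j₀ with hu
  set w : Fin (N + 1) → L := u • z' with hw
  set h : Fin (N + 1) → L := y' - w with hh
  have hyw : y' = w + h := by rw [hh]; ring
  have hv1 : ∀ i, v (y' i) ≤ 1 := fun i => hny ▸ le_nmf v y' i
  have hv2 : ∀ i, v (z' i) ≤ 1 := fun i => hnz ▸ le_nmf v z' i
  have hvw : ∀ i, v (w i) ≤ 1 := by
    intro i
    simp only [hw, Pi.smul_apply, smul_eq_mul, map_mul]
    exact mul_le_one₀ (hv1 j₀) (v_nonneg v _) (hv2 i)
  have hvh : ∀ i, v (h i) ≤ r := by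
    intro i
    have h1 := hc' i j₀
    rw [hny, hnz, hzj, mul_one, mul_one, mul_one] at h1
    simp only [hh, hw, Pi.sub_apply, Pi.smul_apply, smul_eq_mul, hu]
    exact h1
  have hmul : ∀ {x y : L} {A B : ℝ}, v x ≤ A → v y ≤ B → v (x * y) ≤ A * B := by
    intro x y A B hx hy
    rw [map_mul]
    exact mul_le_mul hx hy (v_nonneg v _) ((v_nonneg v _).trans hx)
  have hα0 : 0 ≤ v (im L a) * r := mul_nonneg (v_nonneg v _) hr0
  -- the values of the forms are close
  have hclose : ∀ i, v (act F y' i - act F w i) ≤ v (im L a) * r := by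
    intro i
    obtain ⟨-, -, h3⟩ := taylor v φ hφ1 w h hvw hr0 hr1 hvh (G i)
    have h4 : v (∑ j, eval₂ φ w (pderiv j (G i)) * h j) ≤ v (im L a) * r := by
      refine v_sum_le v _ _ hα0 fun j _ => ?_
      obtain ⟨q, hq⟩ := hdiv i j
      rw [hq, eval₂_mul, eval₂_C]
      have h5 := (taylor v φ hφ1 w h hvw hr0 hr1 hvh q).1
      have h6 : v (φ a * eval₂ φ w q) ≤ v (im L a) * 1 := hmul (le_of_eq rfl) h5
      rw [mul_one] at h6
      exact hmul h6 (hvh j)
    rw [hact, hact, hyw]
    have e : eval₂ φ (w + h) (G i) - eval₂ φ w (G i) =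
      (eval₂ φ (w + h) (G i) - eval₂ φ w (G i) - ∑ j, eval₂ φ w (pderiv j (G i)) * h j) +
        ∑ j, eval₂ φ w (pderiv j (G i)) * h j := by ring
    rw [e]
    refine v_add_le' v (h3.trans ?_) h4
    rw [sq]
    exact mul_le_mul_of_nonneg_right hr hr0
  have hFw : act F w = u ^ d • act F z' := act_smul hF u z'
  have hFz1 : ∀ i, v (act F z' i) ≤ 1 := by
    intro i
    have := le_nmf v (act F z') i
    rwa [hgood, hnz, one_pow] at this
  have hmain : Cg v (v (im L a) * r) (act F y') (act F z') := by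
    intro i j
    rw [hgood, hgood, hny, hnz]
    simp only [one_pow, mul_one]
    have e : act F y' i * act F z' j - act F y' j * act F z' i =
        (act F y' i - act F w i) * act F z' j - (act F y' j - act F w j) * act F z' i := by
      rw [hFw]
      simp only [Pi.smul_apply, smul_eq_mul]
      ring
    rw [e]
    refine (v_sub_le v _ _).trans (max_le ?_ ?_)
    · simpa using hmul (hclose i) (hFz1 j)
    · simpa using hmul (hclose j) (hFz1 i)
  have ey : act F y = (y i₀) ^ d • act F y' := by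
    rw [← act_smul hF, hy', smul_smul, mul_inv_cancel₀ hy0, one_smul]
  have ez : act F z = (z j₀) ^ d • act F z' := by
    rw [← act_smul hF, hz', smul_smul, mul_inv_cancel₀ hz0, one_smul]
  rw [ey, ez]
  exact hmain.smul _ _

end loc

end

end Pool.Agent.X115.DL
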