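import Mathlib
import Pool.Agent.X115.DL.Pre3

/-!
The second part: maps whose differential vanishes modulo `a`.
-/

set_option autoImplicit false

namespace Pool.Agent.X115.DL

open NumberField Module MvPolynomial Filter Topology
open Pool.Agent.W238.Leh

noncomputable section

variable {K : Type} [Field K] [NumberField K] {L : Type} [Field L] [NumberField L] [Algebra K L]
  {N d : ℕ}

lemma iter_step (F : Fin (N + 1) → MvPolynomial (Fin (N + 1)) K)
    (hF : ∀ i, (F i).IsHomogeneous d) {a : 𝓞 K} (hda : DerivZero F a) (v : FinitePlace L)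
    (hgood : ∀ z : Fin (N + 1) → L, nmf v (act F z) = nmf v z ^ d)
    {y z : Fin (N + 1) → L} (hy : ∀ n, (act F)^[n] y ≠ 0) (hz : ∀ n, (act F)^[n] z ≠ 0)
    (hc : Cg v (v (im L a)) y z) (i : ℕ) :
    Cg v (v (im L a) ^ (i + 1)) ((act F)^[i] y) ((act F)^[i] z) := by
  have ha0 : 0 ≤ v (im L a) := v_nonneg v _
  have ha1 : v (im L a) ≤ 1 := v_int_le v ((a.isIntegral_coe).algebraMap)
  induction i with
  | zero => simpa using hc
  | succ i ih =>
    have h1 := local_step F hF hda v hgood (hy i) (hz i) (pow_nonneg ha0 (i + 1))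
      (by
        rw [pow_succ]
        exact mul_le_of_le_one_left ha0 (pow_le_one₀ ha0 ha1)) ih
    rw [Function.iterate_succ_apply', Function.iterate_succ_apply']
    have e : v (im L a) ^ (i + 1 + 1) = v (im L a) * v (im L a) ^ (i + 1) := by ring
    rw [e]
    exact h1

lemma two_le_norm {a : 𝓞 K} (ha : a ≠ 0) (hu : ¬ IsUnit a) :
    (2 : ℝ) ≤ |((Algebra.norm ℚ (a : K) : ℚ) : ℝ)| := by
  have h1 : ((Algebra.norm ℤ a : ℤ) : ℚ) = Algebra.norm ℚ (a : K) := Algebra.coe_norm_int a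
  have h2 : Algebra.norm ℤ a ≠ 0 := by
    rw [Ne, Algebra.norm_eq_zero_iff]
    exact ha
  have h3 : |Algebra.norm ℤ a| ≠ 1 := by
    intro h
    apply hu
    rw [NumberField.isUnit_iff_norm, RingOfIntegers.coe_norm, ← h1]
    exact_mod_cast congrArg (fun n : ℤ => (n : ℚ)) h
  have h4 : 2 ≤ |Algebra.norm ℤ a| := by
    have h5 : 0 < |Algebra.norm ℤ a| := abs_pos.mpr h2
    omega
  rw [← h1]
  have h6 : ((2 : ℤ) : ℝ) ≤ ((|Algebra.norm ℤ a| : ℤ) : ℝ) := by exact_mod_cast h4
  push_cast at h6 ⊢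
  exact h6

lemma hasGS_a {a : 𝓞 K} (ha : a ≠ 0) (hu : ¬ IsUnit a) :
    ∃ S : ℝ, finrank K L * Real.log 2 ≤ S ∧
      HasGS (fun _ : InfinitePlace L => (0 : ℝ)) (fun v => Real.log (v (im L a))) (-S) := by
  have haL : im L a ≠ 0 := by
    rw [im, Ne, map_eq_zero]
    exact fun h => ha (RingOfIntegers.ext (by rw [h]; rfl))
  have h := HasGS.prod haL
  refine ⟨∑ w : InfinitePlace L, (w.mult : ℝ) * Real.log (w (im L a)), ?_, h.1, ?_⟩
  · have h1 : ∑ w : InfinitePlace L, (w.mult : ℝ) * Real.log (w (im L a)) =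
        Real.log (∏ w : InfinitePlace L, w (im L a) ^ w.mult) := by
      rw [Real.log_prod (fun w _ => pow_ne_zero _ (InfinitePlace.pos_iff.mpr haL).ne')]
      refine Finset.sum_congr rfl fun w _ => ?_
      rw [Real.log_pow]
    rw [h1, InfinitePlace.prod_eq_abs_norm]
    have h2 : Algebra.norm ℚ (im L a) = (Algebra.norm ℚ (a : K)) ^ finrank K L := by
      rw [im, ← Algebra.norm_norm (S := K) (R := ℚ), Algebra.norm_algebraMap, map_pow]
    rw [h2]
    have h3 := two_le_norm ha hu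
    push_cast
    rw [abs_pow, Real.log_pow]
    exact mul_le_mul_of_nonneg_left (Real.log_le_log (by norm_num) h3) (Nat.cast_nonneg _)
  · have h4 := h.2
    simp only [mul_zero, Finset.sum_const_zero, zero_add]
    linarith

/-- good reduction at the places dividing `a` -/
def GoodAt (F : Fin (N + 1) → MvPolynomial (Fin (N + 1)) K) (d : ℕ) (a : 𝓞 K) : Prop :=
  ∀ (L : Type) [Field L] [NumberField L] [Algebra K L] (v : FinitePlace L),
    v (im L a) < 1 → ∀ z : Fin (N + 1) → L, nmf v (act F z) = nmf v z ^ d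

theorem part2 (K : Type) [Field K] [NumberField K] (N d : ℕ) (hd : 2 ≤ d)
    (F : Fin (N + 1) → MvPolynomial (Fin (N + 1)) K) (hF : ∀ i, (F i).IsHomogeneous d)
    (hmor : ∀ z : Fin (N + 1) → AlgebraicClosure K, (∀ i, aeval z (F i) = 0) → z = 0)
    (a : 𝓞 K) (ha : a ≠ 0) (hu : ¬ IsUnit a) (hda : DerivZero F a) (hgood : GoodAt F d a) :
    ∃ c : ℝ, 0 < c ∧ ∀ (L : Type) [Field L] [NumberField L] [Algebra K L]
      (x : Fin (N + 1) → L), x ≠ 0 →
      (¬ ∃ m n : ℕ, m ≠ n ∧ ∃ c : L, c ≠ 0 ∧ (act F)^[n] x = c • (act F)^[m] x) →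
      ∀ k n : ℕ, k < n →
        (∀ v : FinitePlace L, v (im L a) < 1 →
          Cg v (v (im L a)) ((act F)^[n] x) ((act F)^[k] x)) →
        c ≤ d ^ n * canH F d x := by
  obtain ⟨C, hC, h⟩ := part1 K N d hd F hF hmor
  have hl2 := Real.log_pos one_lt_two
  obtain ⟨i, hi⟩ := exists_nat_ge ((finrank ℚ K * (C + 1)) / Real.log 2)
  have hd0 : (0 : ℝ) < d := by
    have : 0 < d := by omega
    exact_mod_cast this
  refine ⟨1 / (2 * d ^ i), by positivity, ?_⟩
  intro L _ _ _ x hx hw k n hkn hc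
  obtain ⟨-, hH, hmain⟩ := h L x hx
  obtain ⟨C', -, h'⟩ := setup K N d hd F hF hmor
  have hne : ∀ m, (act F)^[m] x ≠ 0 := fun m => ((h' L x hx).2.2 m).1
  obtain ⟨S, hS, hgs⟩ := hasGS_a (L := L) ha hu
  have hcomm : ∀ m, (act F)^[i + m] x = (act F)^[i] ((act F)^[m] x) := fun m =>
    Function.iterate_add_apply _ _ _ _
  have hnp : ¬ ∃ c : L, c ≠ 0 ∧ (act F)^[i + n] x = c • (act F)^[i + k] x := fun h0 =>
    hw ⟨i + k, i + n, by omega, h0⟩
  have hg := hgs.const_mul (-((i : ℝ) + 1))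
  simp only [mul_zero] at hg
  have hcon : ∀ v, Cg v (Real.exp (-(-((i : ℝ) + 1) * Real.log (v (im L a)))))
      ((act F)^[i + n] x) ((act F)^[i + k] x) := by
    intro v
    have haL : im L a ≠ 0 := by
      rw [im, Ne, map_eq_zero]
      exact fun h => ha (RingOfIntegers.ext (by rw [h]; rfl))
    have hv0 : 0 < v (im L a) := FinitePlace.pos_iff.mpr haL
    have e : Real.exp (-(-((i : ℝ) + 1) * Real.log (v (im L a)))) = v (im L a) ^ (i + 1) := by
      rw [← Real.rpow_natCast, Real.rpow_def_of_pos hv0]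
      congr 1
      push_cast
      ring
    rw [e]
    have hv1 : v (im L a) ≤ 1 := v_int_le v ((a.isIntegral_coe).algebraMap)
    rcases hv1.lt_or_eq with hlt | heq
    · rw [hcomm, hcomm]
      refine iter_step F hF hda v (hgood L v hlt) ?_ ?_ (hc v hlt) i
      · intro m
        rw [← Function.iterate_add_apply]
        exact hne _
      · intro m
        rw [← Function.iterate_add_apply]
        exact hne _
    · rw [heq, one_pow]
      exact minor_fin v _ _
  have h1 := hmain (i + k) (i + n) hnp _ _ hg hcon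
  have hL : (0 : ℝ) < finrank ℚ L := finrank_pos'
  have hKL : (finrank ℚ L : ℝ) = finrank ℚ K * finrank K L := by
    exact_mod_cast (Module.finrank_mul_finrank ℚ K L).symm
  have hKL0 : (0 : ℝ) ≤ finrank K L := Nat.cast_nonneg _
  have h2 : (finrank ℚ L : ℝ) * (C + 1) ≤ -((i : ℝ) + 1) * -S := by
    rw [div_le_iff₀ hl2] at hi
    calc (finrank ℚ L : ℝ) * (C + 1) = finrank K L * (finrank ℚ K * (C + 1)) := by
          rw [hKL]; ring
      _ ≤ finrank K L * (i * Real.log 2) := mul_le_mul_of_nonneg_left hi hKL0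
      _ = i * (finrank K L * Real.log 2) := by ring
      _ ≤ i * S := mul_le_mul_of_nonneg_left hS (Nat.cast_nonneg _)
      _ ≤ _ := by
        have hS0 : 0 ≤ S := le_trans (by positivity) hS
        nlinarith
  have h3 : (finrank ℚ L : ℝ) * (C + 1) ≤
      finrank ℚ L * ((d ^ (i + n) + d ^ (i + k)) * canH F d x + C) := h2.trans h1
  have h4 := le_of_mul_le_mul_left h3 hL
  have h5 : (1 : ℝ) ≤ (d ^ (i + n) + d ^ (i + k)) * canH F d x := by linarith
  have h6 : ((d : ℝ) ^ (i + k)) ≤ d ^ (i + n) :=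
    pow_le_pow_right₀ (by exact_mod_cast (by omega : 1 ≤ d)) (by omega)
  have h7 : (1 : ℝ) ≤ 2 * d ^ i * (d ^ n * canH F d x) := by
    calc (1 : ℝ) ≤ (d ^ (i + n) + d ^ (i + k)) * canH F d x := h5
      _ ≤ (d ^ (i + n) + d ^ (i + n)) * canH F d x :=
          mul_le_mul_of_nonneg_right (by linarith) hH
      _ = _ := by rw [pow_add]; ring
  rw [div_le_iff₀ (by positivity)]
  linarith

end

end Pool.Agent.X115.DL
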